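import Mathlib

namespace Pool.Agent.H.MP_9e0a8c_lc
open Finset

/-- indicator of t < u -/
noncomputable def ind (u t : ℝ) : ℝ := if t < u then 1 else 0

lemma disc0 (U : Finset ℝ) (hU : ∀ u ∈ U, 0 ≤ u) :
    ∃ (T : Finset ℝ) (w : ℝ → ℝ) (M : ℝ), (∀ t, 0 ≤ w t) ∧ (∀ t ∈ T, t < M) ∧
      (∀ u ∈ U, u ≤ M) ∧ (M = 0 ∨ M ∈ U) ∧ ∑ t ∈ T, w t = M ∧
      ∀ u ∈ U, ∑ t ∈ T, w t * ind u t = u := by
  classical
  induction U using Finset.induction_on_max with
  | empty => exact ⟨∅, fun _ => 0, 0, by simp, by simp, by simp, by simp, by simp, by simp⟩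
  | insert a s has ih =>
    obtain ⟨T, w, M, hw, hT, hUM, hM, hs, hu⟩ := ih (fun u hu => hU u (mem_insert_of_mem hu))
    have ha0 : 0 ≤ a := hU a (mem_insert_self _ _)
    have hMa : M ≤ a := by
      rcases hM with h | h
      · rw [h]; exact ha0
      · exact (has M h).le
    rcases hMa.eq_or_lt with h | h
    · refine ⟨T, w, M, hw, hT, ?_, Or.inr (h ▸ mem_insert_self _ _), hs, ?_⟩
      · intro u hu'
        rcases mem_insert.1 hu' with rfl | h'
        · exact h.ge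
        · exact hUM u h'
      · intro u hu'
        rcases mem_insert.1 hu' with rfl | h'
        · rw [← h, ← hs]
          refine sum_congr rfl fun t ht => ?_
          rw [hs]
          simp [ind, hT t ht]
        · exact hu u h'
    · have hMT : M ∉ T := fun h' => lt_irrefl _ (hT M h')
      have key : ∀ g : ℝ → ℝ, ∑ t ∈ insert M T, Function.update w M (a - M) t * g t
          = (a - M) * g M + ∑ t ∈ T, w t * g t := by
        intro g
        rw [sum_insert hMT, Function.update_self]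
        congr 1
        refine sum_congr rfl fun t ht => ?_
        rw [Function.update_of_ne (fun e : t = M => hMT (e ▸ ht))]
      refine ⟨insert M T, Function.update w M (a - M), a, ?_, ?_, ?_,
        Or.inr (mem_insert_self _ _), ?_, ?_⟩
      · intro t
        by_cases e : t = M
        · subst e; simp; exact h.le
        · rw [Function.update_of_ne e]; exact hw t
      · intro t ht
        rcases mem_insert.1 ht with rfl | h'
        · exact h
        · exact (hT t h').trans h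
      · intro u hu'
        rcases mem_insert.1 hu' with rfl | h'
        · exact le_rfl
        · exact (has u h').le
      · have := key (fun _ => 1)
        simp only [mul_one] at this
        rw [this, hs]; ring
      · intro u hu'
        rw [key]
        rcases mem_insert.1 hu' with rfl | h'
        · have : ∑ t ∈ T, w t * ind u t = M := by
            rw [← hs]
            refine sum_congr rfl fun t ht => ?_
            simp [ind, (hT t ht).trans h]
          rw [this]; simp [ind, h]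
        · rw [hu u h']
          simp [ind, not_lt.2 (hUM u h')]

lemma disc (n : ℕ) (u : ℕ → ℝ) (hu : ∀ i < n, 0 ≤ u i ∧ u i ≤ 1) :
    ∃ (T : Finset ℝ) (w : ℝ → ℝ), (∀ t, 0 ≤ w t) ∧ ∑ t ∈ T, w t = 1 ∧
      ∀ i < n, ∑ t ∈ T, w t * ind (u i) t = u i := by
  classical
  obtain ⟨T, w, M, hw, -, hUM, hM, hs, hh⟩ := disc0 (insert 1 ((range n).image u)) (by
    intro x hx
    rcases mem_insert.1 hx with rfl | h
    · norm_num
    · obtain ⟨i, hi, rfl⟩ := mem_image.1 h
      exact (hu i (mem_range.1 hi)).1)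
  have h1 : 1 ≤ M := hUM 1 (mem_insert_self _ _)
  have h2 : M ≤ 1 := by
    rcases hM with h | h
    · rw [h]; norm_num
    · rcases mem_insert.1 h with h | h
      · exact h.le
      · obtain ⟨i, hi, rfl⟩ := mem_image.1 h
        exact (hu i (mem_range.1 hi)).2
  refine ⟨T, w, hw, by rw [hs]; linarith, fun i hi => hh _ ?_⟩
  exact mem_insert_of_mem (mem_image_of_mem _ (mem_range.2 hi))

/-- the majority graph -/
noncomputable def gr (K : ℕ) (a b : ℝ → ℕ) (x z : ℝ) : ℝ :=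
  if K ≤ a x + b z ∨ K ≤ a z + b x then 1 else 0

lemma gr_symm (K : ℕ) (a b : ℝ → ℕ) (x z : ℝ) : gr K a b x z = gr K a b z x := by
  simp only [gr, or_comm]

lemma tri_pt (K : ℕ) (a b : ℝ → ℕ) (x y z : ℝ) :
    let N : ℝ → ℝ := fun t => ((a t + b t : ℕ) : ℝ)
    let G := gr K a b
    (K : ℝ) * (2 * (G x y + G y z + G x z) + 2 * (G x y * G x z + G x y * G y z + G x z * G y z))
      ≤ 3 * (N x * (G x y + G x z) + N y * (G x y + G y z) + N z * (G x z + G y z)) := by
  intro N G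
  simp only [N, G, gr]
  split_ifs with h1 h2 h3 h3 h2 h3 h3
  all_goals norm_num
  all_goals norm_cast
  all_goals omega

lemma tri (T : Finset ℝ) (w : ℝ → ℝ) (hw : ∀ t, 0 ≤ w t) (hs : ∑ t ∈ T, w t = 1)
    (K : ℕ) (a b : ℝ → ℕ) :
    (K : ℝ) * (∑ x ∈ T, w x * (∑ y ∈ T, w y * gr K a b x y)
        + ∑ x ∈ T, w x * (∑ y ∈ T, w y * gr K a b x y) ^ 2)
      ≤ 3 * ∑ x ∈ T, w x * (((a x + b x : ℕ) : ℝ) * ∑ y ∈ T, w y * gr K a b x y) := by
  set N : ℝ → ℝ := fun t => ((a t + b t : ℕ) : ℝ) with hN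
  set G := gr K a b with hG
  let S : (ℝ → ℝ → ℝ → ℝ) → ℝ := fun φ => ∑ x ∈ T, ∑ y ∈ T, ∑ z ∈ T, w x * w y * w z * φ x y z
  have s1 : ∀ φ, S φ = S (fun x y z => φ y x z) := by
    intro φ
    simp only [S]
    rw [sum_comm]
    refine sum_congr rfl fun x _ => sum_congr rfl fun y _ => sum_congr rfl fun z _ => by ring
  have s2 : ∀ φ, S φ = S (fun x y z => φ x z y) := by
    intro φ
    simp only [S]
    refine sum_congr rfl fun x _ => ?_
    rw [sum_comm]
    refine sum_congr rfl fun y _ => sum_congr rfl fun z _ => by ring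
  let ψ : ℝ → ℝ → ℝ → ℝ := fun x y z => 3 * (N x * G x y) - K * (G x y + G x y * G x z)
  have e1 := s1 ψ
  have e2 := s2 ψ
  have e3 := s2 (fun x y z => ψ y x z)
  have e4 := s1 (fun x y z => ψ x z y)
  have e5 := s1 (fun x y z => ψ z x y)
  have hsum : 0 ≤ S ψ + S (fun x y z => ψ y x z) + S (fun x y z => ψ x z y)
      + S (fun x y z => ψ z x y) + S (fun x y z => ψ y z x) + S (fun x y z => ψ z y x) := by
    simp only [S, ← sum_add_distrib]
    refine sum_nonneg fun x _ => sum_nonneg fun y _ => sum_nonneg fun z _ => ?_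
    have h := tri_pt K a b x y z
    simp only at h
    have hp : 0 ≤ w x * w y * w z := mul_nonneg (mul_nonneg (hw x) (hw y)) (hw z)
    have : 0 ≤ ψ x y z + ψ y x z + ψ x z y + ψ z x y + ψ y z x + ψ z y x := by
      simp only [ψ, hG, hN, gr_symm K a b y x, gr_symm K a b z x, gr_symm K a b z y]
      linarith
    nlinarith [mul_nonneg hp this]
  have hψ : 0 ≤ S ψ := by linarith
  have : S ψ = 3 * ∑ x ∈ T, w x * (N x * ∑ y ∈ T, w y * G x y)
      - (K : ℝ) * (∑ x ∈ T, w x * (∑ y ∈ T, w y * G x y)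
        + ∑ x ∈ T, w x * (∑ y ∈ T, w y * G x y) ^ 2) := by
    simp only [S]
    rw [← sum_add_distrib, mul_sum, mul_sum, ← sum_sub_distrib]
    refine sum_congr rfl fun x _ => ?_
    have : ∀ y ∈ T, ∑ z ∈ T, w x * w y * w z * ψ x y z
        = w x * (3 * N x - K - K * ∑ z ∈ T, w z * G x z) * (w y * G x y) := by
      intro y _
      have : ∀ z ∈ T, w x * w y * w z * ψ x y z
          = (w x * w y * G x y * (3 * N x - K)) * w z
            - (w x * w y * G x y * K) * (w z * G x z) := by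
        intro z _; simp only [ψ]; ring
      rw [sum_congr rfl this, sum_sub_distrib, ← mul_sum, ← mul_sum, hs]; ring
    rw [sum_congr rfl this, ← mul_sum]; ring
  linarith

lemma fin_ineq (T : Finset ℝ) (w : ℝ → ℝ) (hw : ∀ t, 0 ≤ w t) (hs : ∑ t ∈ T, w t = 1)
    (k : ℕ) (a b : ℝ → ℕ) (hpos : 0 < ∑ x ∈ T, w x * ((a x + b x : ℕ) : ℝ)) :
    (2 * k + 1 : ℝ) * ∑ x ∈ T, w x * ((∑ y ∈ T, w y * gr (k + 1) a b x y)
        * ((2 * k + 1 : ℝ) - 2 * ((a x + b x : ℕ) : ℝ)))
      < 4 * ∑ x ∈ T, w x * ((a x + b x : ℕ) : ℝ) ^ 2 := by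
  have h := tri T w hw hs (k + 1) a b
  set N : ℝ → ℝ := fun t => ((a t + b t : ℕ) : ℝ) with hN
  set D : ℝ → ℝ := fun x => ∑ y ∈ T, w y * gr (k + 1) a b x y with hD
  have hD0 : ∀ x, 0 ≤ D x := fun x => sum_nonneg fun y _ => mul_nonneg (hw y) (by
    simp only [gr]; split_ifs <;> norm_num)
  change ((k + 1 : ℕ) : ℝ) * (∑ x ∈ T, w x * D x + ∑ x ∈ T, w x * D x ^ 2)
    ≤ 3 * ∑ x ∈ T, w x * (N x * D x) at h
  change (2 * k + 1 : ℝ) * ∑ x ∈ T, w x * (D x * ((2 * k + 1 : ℝ) - 2 * N x))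
    < 4 * ∑ x ∈ T, w x * N x ^ 2
  change 0 < ∑ x ∈ T, w x * N x at hpos
  have e1 : ∑ x ∈ T, w x * (D x * ((2 * k + 1 : ℝ) - 2 * N x))
      = (2 * k + 1 : ℝ) * ∑ x ∈ T, w x * D x - 2 * ∑ x ∈ T, w x * (N x * D x) := by
    rw [mul_sum, mul_sum, ← sum_sub_distrib]
    exact sum_congr rfl fun x _ => by ring
  have e2 : 0 ≤ 4 * ∑ x ∈ T, w x * N x ^ 2 - 4 * (2 * k + 1 : ℝ) * ∑ x ∈ T, w x * (N x * D x)
      + (2 * k + 1 : ℝ) ^ 2 * ∑ x ∈ T, w x * D x ^ 2 := by
    rw [mul_sum, mul_sum, mul_sum, ← sum_sub_distrib, ← sum_add_distrib]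
    refine sum_nonneg fun x _ => ?_
    nlinarith [mul_nonneg (hw x) (sq_nonneg (2 * N x - (2 * k + 1 : ℝ) * D x))]
  have e3 : 0 ≤ ∑ x ∈ T, w x * D x := sum_nonneg fun x _ => mul_nonneg (hw x) (hD0 x)
  have e4 : 0 ≤ ∑ x ∈ T, w x * D x ^ 2 := sum_nonneg fun x _ => mul_nonneg (hw x) (sq_nonneg _)
  have e5 : 0 ≤ ∑ x ∈ T, w x * (N x * D x) :=
    sum_nonneg fun x _ => mul_nonneg (hw x) (mul_nonneg (Nat.cast_nonneg _) (hD0 x))
  have e6 : ∑ x ∈ T, w x * N x ≤ ∑ x ∈ T, w x * N x ^ 2 := by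
    refine sum_le_sum fun x _ => mul_le_mul_of_nonneg_left ?_ (hw x)
    simp only [hN]
    exact_mod_cast Nat.le_self_pow (by norm_num) _
  have hk : (0 : ℝ) ≤ k := Nat.cast_nonneg k
  push_cast at h
  rw [e1]
  set P := ∑ x ∈ T, w x * D x
  set Q := ∑ x ∈ T, w x * D x ^ 2
  set R := ∑ x ∈ T, w x * (N x * D x)
  set V := ∑ x ∈ T, w x * N x ^ 2
  rcases e3.eq_or_lt with h0 | h0
  · rw [← h0]; nlinarith
  · have h' := mul_le_mul_of_nonneg_left h (show (0:ℝ) ≤ 2 * (2 * k + 1) by positivity)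
    nlinarith [mul_pos (show (0:ℝ) < 2 * k + 1 by positivity) h0,
      mul_nonneg (show (0:ℝ) ≤ 2 * k + 1 by positivity) e4]

end Pool.Agent.H.MP_9e0a8c_lc
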