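import Mathlib
import Pool.Agent.H.MP_9e0a8c_lc.A

namespace Pool.Agent.H.MP_9e0a8c_lc
open Finset

/-- periodic distance to the nearest integer -/
noncomputable def pd (s : ℝ) : ℝ := min (Int.fract s) (1 - Int.fract s)

lemma pd_add_nat (s : ℝ) (m : ℕ) : pd (s + m) = pd s := by simp [pd]
lemma pd_add_one (s : ℝ) : pd (s + 1) = pd s := by simp [pd]
lemma pd_sub_one (s : ℝ) : pd (s - 1) = pd s := by
  rw [← pd_add_one (s - 1)]; simp

lemma pd_eq (s : ℝ) (h : |s| ≤ 1) : pd s = min |s| (1 - |s|) := by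
  have h' := abs_le.1 h
  rcases lt_or_ge s 0 with h0 | h0
  · rw [← pd_add_one, pd, Int.fract_eq_self.2 ⟨by linarith, by linarith⟩, abs_of_neg h0, min_comm]
    congr 1 <;> ring
  · rcases h'.2.eq_or_lt with h1 | h1
    · subst h1; simp [pd]
    · rw [pd, Int.fract_eq_self.2 ⟨h0, h1⟩, abs_of_nonneg h0]

lemma thr (lo hi : ℕ) (hlh : lo ≤ hi) (P : ℕ → Prop)
    (hP : ∀ i j, lo ≤ i → i ≤ j → j < hi → P i → P j) :
    ∃ c, lo ≤ c ∧ c ≤ hi ∧ ∀ i, lo ≤ i → i < hi → (P i ↔ c ≤ i) := by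
  classical
  have hex : ∃ c, lo ≤ c ∧ (c = hi ∨ P c) := ⟨hi, hlh, Or.inl rfl⟩
  have h1 := Nat.find_spec hex
  have h2 : Nat.find hex ≤ hi := Nat.find_min' hex ⟨hlh, Or.inl rfl⟩
  refine ⟨Nat.find hex, h1.1, h2, fun i hi1 hi2 => ⟨fun h => Nat.find_min' hex ⟨hi1, Or.inr h⟩,
    fun h => ?_⟩⟩
  rcases h1.2 with e | e
  · omega
  · exact hP _ _ h1.1 h hi2 e

lemma sum_two (n b c : ℕ) (hbc : b ≤ c) (hc : c ≤ n) (g : ℕ → ℝ) :
    ∑ i ∈ range n, (if i < b ∨ c ≤ i then 1 else 0) * g i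
      = ∑ i ∈ range b, g i + ∑ i ∈ Ico c n, g i := by
  rw [← sum_union (by
    rw [disjoint_left]; intro i h1 h2; simp at h1 h2; omega)]
  have : range b ∪ Ico c n = (range n).filter (fun i => i < b ∨ c ≤ i) := by
    ext i; simp; omega
  rw [this, sum_filter]
  exact sum_congr rfl fun i _ => by split_ifs <;> simp

lemma ind_sq (T : Finset ℝ) (w : ℝ → ℝ) (α γ : ℝ) (h1 : ∑ t ∈ T, w t * ind α t = α)
    (h2 : ∑ t ∈ T, w t * ind γ t = γ) : ∑ t ∈ T, w t * (ind α t - ind γ t) ^ 2 = |α - γ| := by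
  wlog h : α ≤ γ generalizing α γ
  · rw [abs_sub_comm, ← this γ α h2 h1 (le_of_not_ge h)]
    exact sum_congr rfl fun t _ => by ring
  rw [abs_of_nonpos (by linarith)]
  have : ∀ t ∈ T, w t * (ind α t - ind γ t) ^ 2 = w t * ind γ t - w t * ind α t := by
    intro t _
    simp only [ind]
    split_ifs with a1 a2 a2
    · ring
    · exact absurd (a1.trans_le h) a2
    · ring
    · ring
  rw [sum_congr rfl this, sum_sub_distrib, h1, h2]; ring

lemma ind_sq' (T : Finset ℝ) (w : ℝ → ℝ) (hs : ∑ t ∈ T, w t = 1) (α γ : ℝ)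
    (h1 : ∑ t ∈ T, w t * ind α t = α) (h2 : ∑ t ∈ T, w t * ind γ t = γ) :
    ∑ t ∈ T, w t * (1 - ind α t - ind γ t) ^ 2 = 1 - |α - γ| := by
  rw [← ind_sq T w α γ h1 h2]
  have : ∀ t ∈ T, w t * (1 - ind α t - ind γ t) ^ 2 = w t - w t * (ind α t - ind γ t) ^ 2 := by
    intro t _
    simp only [ind]
    split_ifs <;> ring
  rw [sum_congr rfl this, sum_sub_distrib, hs]

lemma min_half (Δ : ℝ) : min Δ (1 - Δ) = (1 - |1 - 2 * Δ|) / 2 := by
  rcases le_total Δ (1 - Δ) with h | h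
  · rw [min_eq_left h, abs_of_nonneg (by linarith)]; ring
  · rw [min_eq_right h, abs_of_nonpos (by linarith)]; ring

/-- The representation of a sorted profile by diameters. -/
lemma repr (n : ℕ) (X : ℕ → ℝ) (hm : Monotone X) (h0 : -1/2 ≤ X 0) (h1 : ∀ i < n, X i ≤ 1/2) :
    ∃ (T : Finset ℝ) (w : ℝ → ℝ) (p : ℕ) (β c : ℝ → ℕ), (∀ t, 0 ≤ w t) ∧ ∑ t ∈ T, w t = 1 ∧
      (∀ t, β t ≤ p ∧ p ≤ c t ∧ c t ≤ n) ∧
      (∀ i < n, ∑ t ∈ T, w t * (if i < β t ∨ c t ≤ i then 1 else 0)
        = if i < p then -2 * X i else 2 * X i) ∧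
      (∀ i < n, ∑ t ∈ T, w t * (if i < β t ∨ c t ≤ i then 1 else 0) = 2 * pd (X i - 0)) ∧
      ∀ i < n, ∀ j < n, ∑ t ∈ T, w t * ((if i < β t ∨ c t ≤ i then 1 else 0)
        - (if j < β t ∨ c t ≤ j then 1 else 0)) ^ 2 = 2 * pd (X i - X j) := by
  have hlo : ∀ i, -1/2 ≤ X i := fun i => h0.trans (hm (Nat.zero_le i))
  obtain ⟨p, -, hpn, hp⟩ := thr 0 n (Nat.zero_le _) (fun i => 0 < X i)
    (fun i j _ hij _ h => h.trans_le (hm hij))
  have hp1 : ∀ i < n, i < p → X i ≤ 0 := fun i hi h => by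
    by_contra h'
    have := (hp i (Nat.zero_le _) hi).1 (not_le.1 h'); omega
  have hp2 : ∀ i < n, ¬ i < p → 0 < X i := fun i hi h =>
    (hp i (Nat.zero_le _) hi).2 (not_lt.1 h)
  let u : ℕ → ℝ := fun i => if i < p then 1 + 2 * X i else 2 * X i
  obtain ⟨T, w, hw, hs, hu⟩ := disc n u (by
    intro i hi
    simp only [u]
    split_ifs with h
    · have := hp1 i hi h; have := hlo i; constructor <;> linarith
    · have := hp2 i hi h; have := h1 i hi; constructor <;> linarith)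
  have hβ : ∀ t : ℝ, ∃ b, 0 ≤ b ∧ b ≤ p ∧ ∀ i, 0 ≤ i → i < p → (t < 1 + 2 * X i ↔ b ≤ i) :=
    fun t => thr 0 p (Nat.zero_le _) _ (fun i j _ hij _ h => by have := hm hij; linarith)
  have hc : ∀ t : ℝ, ∃ b, p ≤ b ∧ b ≤ n ∧ ∀ i, p ≤ i → i < n → (t < 2 * X i ↔ b ≤ i) :=
    fun t => thr p n hpn _ (fun i j _ hij _ h => by have := hm hij; linarith)
  choose β _ hβ1 hβ2 using hβ
  choose c hc0 hc1 hc2 using hc
  have hS : ∀ i < n, ∀ t, (if i < β t ∨ c t ≤ i then (1:ℝ) else 0)
      = if i < p then 1 - ind (u i) t else ind (u i) t := by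
    intro i hi t
    by_cases h : i < p
    · have a1 := hβ2 t i (Nat.zero_le _) h
      have a2 := hc0 t
      simp only [u, h, if_true, ind]
      by_cases h' : t < 1 + 2 * X i
      · rw [if_pos h', if_neg (by have := a1.1 h'; omega)]; ring
      · rw [if_neg h', if_pos (by left; by_contra e; exact h' (a1.2 (not_lt.1 e)))]; ring
    · have a1 := hc2 t i (not_lt.1 h) hi
      have a2 := hβ1 t
      simp only [u, h, if_false, ind]
      by_cases h' : t < 2 * X i
      · rw [if_pos h', if_pos (Or.inr (a1.1 h'))]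
      · rw [if_neg h', if_neg (by
          rintro (e | e)
          · omega
          · exact h' (a1.2 e))]
  have hE : ∀ i < n, ∑ t ∈ T, w t * (if i < β t ∨ c t ≤ i then 1 else 0)
        = if i < p then -2 * X i else 2 * X i := by
    intro i hi
    simp only [hS i hi]
    have := hu i hi
    by_cases h : i < p
    · simp only [h, if_true, mul_sub, mul_one, sum_sub_distrib, hs, this]
      simp only [u, h, if_true]; ring
    · simp only [h, if_false, this]
      simp only [u, h, if_false]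
  refine ⟨T, w, p, β, c, hw, hs, fun t => ⟨hβ1 t, hc0 t, hc1 t⟩, hE, ?_, ?_⟩
  · intro i hi
    have a1 := hlo i
    have a2 := h1 i hi
    rw [hE i hi, sub_zero, pd_eq _ (abs_le.2 ⟨by linarith, by linarith⟩)]
    split_ifs with h
    · have := hp1 i hi h
      rw [abs_of_nonpos this, min_eq_left (by linarith)]; ring
    · have := hp2 i hi h
      rw [abs_of_pos this, min_eq_left (by linarith)]
  · intro i hi j hj
    have a1 := hlo i
    have a2 := h1 i hi
    have a3 := hlo j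
    have a4 := h1 j hj
    rw [pd_eq _ (abs_le.2 ⟨by linarith, by linarith⟩)]
    simp only [hS i hi, hS j hj]
    have b1 := ind_sq T w _ _ (hu i hi) (hu j hj)
    have b2 := ind_sq' T w hs _ _ (hu i hi) (hu j hj)
    by_cases h : i < p <;> by_cases h' : j < p
    · have c1 := hp1 i hi h
      have c2 := hp1 j hj h'
      simp only [h, h', if_true]
      have : |X i - X j| ≤ 1/2 := abs_le.2 ⟨by linarith, by linarith⟩
      rw [min_eq_left (by linarith), sum_congr rfl (fun t _ => show _ = w t * (ind (u i) t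
        - ind (u j) t) ^ 2 by ring), b1]
      simp only [u, h, h', if_true]
      rw [show 1 + 2 * X i - (1 + 2 * X j) = 2 * (X i - X j) by ring, abs_mul]; simp
    · have c1 := hp1 i hi h
      have c2 := hp2 j hj h'
      simp only [h, h', if_true, if_false]
      rw [b2, min_half, abs_of_neg (show X i - X j < 0 by linarith)]
      simp only [u, h, h', if_true, if_false]
      rw [show 1 + 2 * X i - 2 * X j = 1 - 2 * -(X i - X j) by ring]; ring
    · have c1 := hp2 i hi h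
      have c2 := hp1 j hj h'
      simp only [h, h', if_true, if_false]
      rw [sum_congr rfl (fun t _ => show _ = w t * (1 - ind (u i) t
        - ind (u j) t) ^ 2 by ring), b2, min_half, abs_of_pos (show 0 < X i - X j by linarith)]
      simp only [u, h, h', if_true, if_false]
      rw [abs_sub_comm, show 1 + 2 * X j - 2 * X i = 1 - 2 * (X i - X j) by ring]; ring
    · have c1 := hp2 i hi h
      have c2 := hp2 j hj h'
      simp only [h, h', if_false]
      have : |X i - X j| ≤ 1/2 := abs_le.2 ⟨by linarith, by linarith⟩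
      rw [min_eq_left (by linarith), b1]
      simp only [u, h, h', if_false]
      rw [show 2 * X i - (2 * X j) = 2 * (X i - X j) by ring, abs_mul]; simp

end Pool.Agent.H.MP_9e0a8c_lc
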