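import Mathlib
import Pool.Agent.H.MP_9e0a8c_lc.B

namespace Pool.Agent.H.MP_9e0a8c_lc
open Finset

lemma pt_ineq (k p bx cx bz cz : ℕ) (h1 : bx ≤ p) (h2 : p ≤ cx) (h3 : cx ≤ 2 * k + 1)
    (h4 : bz ≤ p) (h5 : p ≤ cz) (h6 : cz ≤ 2 * k + 1) :
    let n := 2 * k + 1
    let idx : ℕ → ℕ := fun r => if r + k < n then r + k else r + k - n
    let S : ℕ → ℕ → ℕ → ℝ := fun i b c => if i < b ∨ c ≤ i then 1 else 0
    (S (idx bx) bz cz + S (idx cx) bz cz) * ((2 * k + 1 : ℝ) - 2 * (((n - cz) + bz : ℕ) : ℝ))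
      + (S (idx bz) bx cx + S (idx cz) bx cx) * ((2 * k + 1 : ℝ) - 2 * (((n - cx) + bx : ℕ) : ℝ))
      ≤ (if k + 1 ≤ (n - cx) + bz ∨ k + 1 ≤ (n - cz) + bx then 1 else 0) *
        (((2 * k + 1 : ℝ) - 2 * (((n - cx) + bx : ℕ) : ℝ))
          + ((2 * k + 1 : ℝ) - 2 * (((n - cz) + bz : ℕ) : ℝ))) := by
  intro n idx S
  have key : ∀ (r b c : ℕ) (A : Prop) [Decidable A], r < 2 * k + 1 →
      ((r < b ∨ c ≤ r) → ¬ A → k + 1 ≤ (n - c) + b) →
      (¬ (r < b ∨ c ≤ r) → A → (n - c) + b ≤ k) →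
      S r b c * ((2 * k + 1 : ℝ) - 2 * (((n - c) + b : ℕ) : ℝ))
        ≤ (if A then 1 else 0) * ((2 * k + 1 : ℝ) - 2 * (((n - c) + b : ℕ) : ℝ)) := by
    intro r b c A _ _ g1 g2
    simp only [S]
    generalize (n - c) + b = M at *
    split_ifs with a1 a2 a2
    · exact le_rfl
    · have : ((k + 1 : ℕ) : ℝ) ≤ M := by exact_mod_cast g1 a1 a2
      push_cast at this; linarith
    · have : (M : ℝ) ≤ k := by exact_mod_cast g2 a1 a2
      linarith
    · exact le_rfl
  have i1 := key (idx bx) bz cz (k + 1 ≤ (n - cz) + bx) (by simp only [idx, n]; split_ifs <;> omega)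
    (by simp only [idx, n]; split_ifs <;> omega) (by simp only [idx, n]; split_ifs <;> omega)
  have i2 := key (idx cx) bz cz (k + 1 ≤ (n - cx) + bz) (by simp only [idx, n]; split_ifs <;> omega)
    (by simp only [idx, n]; split_ifs <;> omega) (by simp only [idx, n]; split_ifs <;> omega)
  have i3 := key (idx bz) bx cx (k + 1 ≤ (n - cx) + bz) (by simp only [idx, n]; split_ifs <;> omega)
    (by simp only [idx, n]; split_ifs <;> omega) (by simp only [idx, n]; split_ifs <;> omega)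
  have i4 := key (idx cz) bx cx (k + 1 ≤ (n - cz) + bx) (by simp only [idx, n]; split_ifs <;> omega)
    (by simp only [idx, n]; split_ifs <;> omega) (by simp only [idx, n]; split_ifs <;> omega)
  by_cases A1 : k + 1 ≤ (n - cx) + bz <;> by_cases A2 : k + 1 ≤ (n - cz) + bx
  · have : ((2 * k + 2 : ℕ) : ℝ) ≤ ((((n - cx) + bx) + ((n - cz) + bz) : ℕ) : ℝ) := by
      exact_mod_cast (by omega)
    simp only [A1, A2, if_true, or_self] at *
    rw [Nat.cast_add ((n - cx) + bx)] at this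
    generalize (((n - cx) + bx : ℕ) : ℝ) = M1 at *
    generalize (((n - cz) + bz : ℕ) : ℝ) = M2 at *
    push_cast at this
    linarith
  · simp only [A1, A2, if_true, if_false, true_or] at *
    linarith
  · simp only [A1, A2, if_true, if_false, or_true] at *
    linarith
  · simp only [A1, A2, if_false, or_self] at *
    linarith

lemma core (k : ℕ) (X : ℕ → ℝ) (hm : Monotone X) (hper : ∀ i, X (i + (2 * k + 1)) = X i + 1)
    (h0 : -1/2 ≤ X 0) (h1 : X (2 * k) ≤ 1/2) (f : ℝ → ℝ)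
    (hf : ∀ v, f v = ∑ i ∈ range (2 * k + 1), pd (X i - v)) (hpos : 0 < f 0) :
    (∑ j ∈ range (2 * k + 1), f (X j)) / (2 * k + 1)
      + ∑ i ∈ range (2 * k + 1), (X (i + 1) - X i) * f (X (i + 1 + k)) < 3 * f 0 := by
  set n := 2 * k + 1 with hn
  obtain ⟨T, w, p, β, c, hw, hs, hb, hE, hd0, hd⟩ := repr n X hm h0
    (fun i hi => (hm (by omega)).trans h1)
  let S : ℕ → ℝ → ℝ := fun i t => if i < β t ∨ c t ≤ i then 1 else 0
  let N : ℝ → ℝ := fun t => (((n - c t) + β t : ℕ) : ℝ)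
  have hN : ∀ t, ∑ i ∈ range n, S i t = N t := by
    intro t
    have := sum_two n (β t) (c t) ((hb t).1.trans (hb t).2.1) (hb t).2.2 (fun _ => 1)
    simp only [mul_one] at this
    simp only [S, N, this]
    simp [add_comm]
  have hD : 2 * f 0 = ∑ t ∈ T, w t * N t := by
    rw [hf, mul_sum, sum_congr rfl (fun i hi => (hd0 i (mem_range.1 hi)).symm), sum_comm]
    refine sum_congr rfl fun t _ => ?_
    rw [← mul_sum, ← hN]
  have hfj : ∀ j < n, 2 * f (X j) = 2 * f 0 + ∑ t ∈ T, w t * (S j t * ((2 * k + 1 : ℝ) - 2 * N t)) := by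
    intro j hj
    rw [hD, hf, mul_sum, sum_congr rfl (fun i hi => (hd i (mem_range.1 hi) j hj).symm), sum_comm,
      ← sum_add_distrib]
    refine sum_congr rfl fun t _ => ?_
    rw [← mul_sum, ← mul_add]
    congr 1
    have : ∀ i ∈ range n, (S i t - S j t) ^ 2 = S i t * (1 - 2 * S j t) + S j t := by
      intro i _; simp only [S]; split_ifs <;> ring
    rw [sum_congr rfl this, sum_add_distrib, ← sum_mul, hN]
    simp [hn]; ring
  have hRD : ∑ j ∈ range n, f (X j) = (2 * k + 1) * (2 * f 0) - ∑ t ∈ T, w t * N t ^ 2 := by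
    have : 2 * ∑ j ∈ range n, f (X j) = (2 * k + 1) * (2 * f 0)
        + ∑ t ∈ T, w t * (N t * ((2 * k + 1 : ℝ) - 2 * N t)) := by
      rw [mul_sum, sum_congr rfl (fun j hj => hfj j (mem_range.1 hj)), sum_add_distrib, sum_comm]
      congr 1
      · simp [hn]
      · refine sum_congr rfl fun t _ => ?_
        rw [← mul_sum, ← sum_mul, hN]
    have e : ∑ t ∈ T, w t * (N t * ((2 * k + 1 : ℝ) - 2 * N t))
        = (2 * k + 1) * ∑ t ∈ T, w t * N t - 2 * ∑ t ∈ T, w t * N t ^ 2 := by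
      rw [mul_sum, mul_sum, ← sum_sub_distrib]
      exact sum_congr rfl fun t _ => by ring
    rw [e, ← hD] at this
    linarith
  have hfper : ∀ v, f (v + 1) = f v := by
    intro v
    rw [hf, hf]
    exact sum_congr rfl fun i _ => by rw [← pd_sub_one (X i - v)]; congr 1; ring
  let idx : ℕ → ℕ := fun r => if r + k < n then r + k else r + k - n
  let F : ℕ → ℝ := fun r => f (X (r + k))
  have hF : ∀ r, F r = f (X (idx r)) := by
    intro r
    simp only [F, idx]
    split_ifs with h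
    · rfl
    · rw [← hfper (X (r + k - n)), ← hper]; congr 2; omega
  have hFn : F n = F 0 := by
    simp only [F]
    rw [add_comm n k, hper, hfper, zero_add]
  have habel : ∑ i ∈ range n, (X (i + 1) - X i) * F (i + 1)
      = F 0 + ∑ i ∈ range n, X i * (F i - F (i + 1)) := by
    have e := sum_range_sub (fun i => X i * F i) n
    have e2 := hper 0
    rw [zero_add] at e2
    rw [hFn, e2] at e
    have : ∀ i ∈ range n, (X (i + 1) - X i) * F (i + 1)
        = (X (i + 1) * F (i + 1) - X i * F i) + X i * (F i - F (i + 1)) := by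
      intro i _; ring
    rw [sum_congr rfl this, sum_add_distrib, e]; ring
  have hP : 2 * ∑ i ∈ range n, (X (i + 1) - X i) * F (i + 1)
      = ∑ t ∈ T, w t * (F (β t) + F (c t)) := by
    let G : ℕ → ℝ := fun i => if i < p then F (i + 1) - F i else F i - F (i + 1)
    have e1 : ∀ t, F (β t) + F (c t) = 2 * F 0 + ∑ i ∈ range n, S i t * G i := by
      intro t
      simp only [S]
      rw [sum_two n (β t) (c t) ((hb t).1.trans (hb t).2.1) (hb t).2.2 G]
      have a1 : ∑ i ∈ range (β t), G i = F (β t) - F 0 := by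
        rw [← sum_range_sub]
        refine sum_congr rfl fun i hi => ?_
        have := (hb t).1
        simp only [G]; rw [if_pos (by simp at hi; omega)]
      have a2 : ∑ i ∈ Ico (c t) n, G i = F (c t) - F n := by
        have : ∑ i ∈ Ico (c t) n, G i = ∑ i ∈ Ico (c t) n, (F i - F (i + 1)) := by
          refine sum_congr rfl fun i hi => ?_
          have := (hb t).2.1
          simp only [G]; rw [if_neg (by simp at hi; omega)]
        rw [this, sum_Ico_eq_sub _ (hb t).2.2, sum_range_sub', sum_range_sub']; ring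
      rw [a1, a2, hFn]; ring
    simp only [e1, mul_add, sum_add_distrib, ← sum_mul, hs, habel]
    simp only [mul_sum]
    rw [sum_comm]
    congr 1
    · ring
    · refine sum_congr rfl fun i hi => ?_
      have := hE i (mem_range.1 hi)
      rw [sum_congr rfl (fun t _ => (mul_assoc (w t) (S i t) (G i)).symm), ← sum_mul]
      simp only [S, G]
      rw [this]
      split_ifs <;> ring
  have hidx : ∀ r ≤ n, idx r < n := by
    intro r hr; simp only [idx]; split_ifs <;> omega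
  let ψ : ℝ → ℝ → ℝ := fun x z =>
    (S (idx (β x)) z + S (idx (c x)) z) * ((2 * k + 1 : ℝ) - 2 * N z)
  have hP2 : 4 * ∑ i ∈ range n, (X (i + 1) - X i) * F (i + 1)
      = 4 * f 0 + ∑ x ∈ T, ∑ z ∈ T, w x * w z * ψ x z := by
    have : ∀ x ∈ T, 2 * (w x * (F (β x) + F (c x)))
        = w x * (4 * f 0) + ∑ z ∈ T, w x * w z * ψ x z := by
      intro x _
      have a1 := hfj _ (hidx (β x) (((hb x).1.trans (hb x).2.1).trans (hb x).2.2))
      have a2 := hfj _ (hidx (c x) (hb x).2.2)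
      rw [← hF] at a1 a2
      have a3 : ∑ z ∈ T, w x * w z * ψ x z = w x * (∑ t ∈ T, w t * (S (idx (β x)) t *
          ((2 * k + 1 : ℝ) - 2 * N t)) + ∑ t ∈ T, w t * (S (idx (c x)) t *
          ((2 * k + 1 : ℝ) - 2 * N t))) := by
        rw [← sum_add_distrib, mul_sum]
        exact sum_congr rfl fun z _ => by simp only [ψ]; ring
      rw [a3]
      linear_combination w x * a1 + w x * a2
    have e : 4 * ∑ i ∈ range n, (X (i + 1) - X i) * F (i + 1)
        = 2 * ∑ t ∈ T, w t * (F (β t) + F (c t)) := by rw [← hP]; ring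
    rw [e, mul_sum, sum_congr rfl this, sum_add_distrib, ← sum_mul, hs]; ring
  let a : ℝ → ℕ := fun t => n - c t
  have hsym : ∑ x ∈ T, ∑ z ∈ T, w x * w z * ψ x z
      ≤ ∑ x ∈ T, w x * ((∑ y ∈ T, w y * gr (k + 1) a β x y) * ((2 * k + 1 : ℝ) - 2 * N x)) := by
    have e1 : ∑ x ∈ T, ∑ z ∈ T, w x * w z * ψ x z = ∑ x ∈ T, ∑ z ∈ T, w x * w z * ψ z x := by
      rw [sum_comm]
      exact sum_congr rfl fun x _ => sum_congr rfl fun z _ => by ring
    have e2 : ∑ x ∈ T, w x * ((∑ y ∈ T, w y * gr (k + 1) a β x y) * ((2 * k + 1 : ℝ) - 2 * N x))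
        = ∑ x ∈ T, ∑ z ∈ T, w x * w z * (gr (k + 1) a β x z * ((2 * k + 1 : ℝ) - 2 * N x)) := by
      refine sum_congr rfl fun x _ => ?_
      rw [sum_mul, mul_sum]
      exact sum_congr rfl fun z _ => by ring
    have e3 : ∑ x ∈ T, ∑ z ∈ T, w x * w z * (gr (k + 1) a β x z * ((2 * k + 1 : ℝ) - 2 * N x))
        = ∑ x ∈ T, ∑ z ∈ T, w x * w z * (gr (k + 1) a β x z * ((2 * k + 1 : ℝ) - 2 * N z)) := by
      rw [sum_comm]
      exact sum_congr rfl fun x _ => sum_congr rfl fun z _ => by rw [gr_symm]; ring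
    have e4 : ∑ x ∈ T, ∑ z ∈ T, w x * w z * ψ x z + ∑ x ∈ T, ∑ z ∈ T, w x * w z * ψ z x
        ≤ ∑ x ∈ T, ∑ z ∈ T, w x * w z * (gr (k + 1) a β x z * ((2 * k + 1 : ℝ) - 2 * N x))
        + ∑ x ∈ T, ∑ z ∈ T, w x * w z * (gr (k + 1) a β x z * ((2 * k + 1 : ℝ) - 2 * N z)) := by
      simp only [← sum_add_distrib, ← mul_add]
      refine sum_le_sum fun x _ => sum_le_sum fun z _ =>
        mul_le_mul_of_nonneg_left ?_ (mul_nonneg (hw x) (hw z))
      exact pt_ineq k p (β x) (c x) (β z) (c z) (hb x).1 (hb x).2.1 (hb x).2.2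
        (hb z).1 (hb z).2.1 (hb z).2.2
    linarith
  have hfin := fin_ineq T w hw hs k a β (by
    change 0 < ∑ t ∈ T, w t * N t
    rw [← hD]; linarith)
  change (2 * k + 1 : ℝ) * ∑ x ∈ T, w x * ((∑ y ∈ T, w y * gr (k + 1) a β x y)
    * ((2 * k + 1 : ℝ) - 2 * N x)) < 4 * ∑ t ∈ T, w t * N t ^ 2 at hfin
  change _ + ∑ i ∈ range n, (X (i + 1) - X i) * F (i + 1) < _
  have hk : (0 : ℝ) < 2 * k + 1 := by positivity
  rw [hRD, div_add' _ _ _ hk.ne', div_lt_iff₀ hk]
  nlinarith [mul_le_mul_of_nonneg_left hsym hk.le]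

lemma sum_shift (n : ℕ) (F : ℕ → ℝ) (hF : ∀ i, F (i + n) = F i) (m : ℕ) :
    ∑ i ∈ range n, F (m + i) = ∑ i ∈ range n, F i := by
  induction m with
  | zero => simp
  | succ m ih =>
    have e1 := sum_range_succ (fun i => F (m + i)) n
    have e2 := sum_range_succ' (fun i => F (m + i)) n
    simp only [add_zero, hF m] at e1 e2
    rw [← ih]
    have : ∀ i ∈ range n, F (m + 1 + i) = F (m + (i + 1)) := by
      intro i _; congr 1; ring
    rw [sum_congr rfl this]; linarith

lemma core2 (k : ℕ) (Y : ℕ → ℝ) (hm : Monotone Y) (hper : ∀ i, Y (i + (2 * k + 1)) = Y i + 1)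
    (o : ℝ) (h0 : Y 0 < o - 1/2) (hex : ∃ m, o - 1/2 ≤ Y m) (f : ℝ → ℝ)
    (hf : ∀ v, f v = ∑ i ∈ range (2 * k + 1), pd (Y i - v)) (hpos : 0 < f o) :
    (∑ j ∈ range (2 * k + 1), f (Y j)) / (2 * k + 1)
      + ∑ j ∈ range (2 * k + 1), (Y (j + k + 1) - Y (j + k)) * f (Y j) < 3 * f o := by
  classical
  obtain ⟨m, hm1, hm2⟩ : ∃ m, o - 1/2 ≤ Y (m + 1) ∧ Y m < o - 1/2 := by
    have a1 := Nat.find_spec hex
    have a2 : Nat.find hex ≠ 0 := fun e => by rw [e] at a1; linarith
    obtain ⟨m, e⟩ := Nat.exists_eq_succ_of_ne_zero a2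
    exact ⟨m, by rw [e] at a1; exact a1, not_le.1 (Nat.find_min hex (by omega))⟩
  have hfper : ∀ v, f (v + 1) = f v := by
    intro v
    rw [hf, hf]
    exact sum_congr rfl fun i _ => by rw [← pd_sub_one (Y i - v)]; congr 1; ring
  have h := core k (fun i => Y (m + 1 + i) - o) (fun i j hij => by
      have := hm (show m + 1 + i ≤ m + 1 + j by omega); simp only; linarith)
    (fun i => by simp only [← add_assoc (m + 1) i, hper]; ring) (by simp only [add_zero]; linarith)
    (by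
      have := hper m
      simp only [show m + 1 + 2 * k = m + (2 * k + 1) by ring]; linarith)
    (fun v => f (v + o)) (fun v => by
      rw [hf, ← sum_shift (2 * k + 1) (fun i => pd (Y i - (v + o))) (fun i => by
        simp only [hper]; rw [← pd_add_one (Y i - (v + o))]; congr 1; ring) (m + 1)]
      exact sum_congr rfl fun i _ => by congr 1; ring) (by simpa using hpos)
  simp only [sub_add_cancel, zero_add] at h
  rw [sum_shift (2 * k + 1) (fun j => f (Y j)) (fun i => by simp only [hper, hfper]) (m + 1)] at h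
  rw [← sum_shift (2 * k + 1) (fun j => (Y (j + k + 1) - Y (j + k)) * f (Y j)) (fun i => by
    rw [show i + (2 * k + 1) + k + 1 = (i + k + 1) + (2 * k + 1) by ring,
      show i + (2 * k + 1) + k = (i + k) + (2 * k + 1) by ring, hper, hper, hper, hfper]; ring)
    (m + 1 + (1 + k))]
  convert h using 2
  refine sum_congr rfl fun i _ => ?_
  rw [show m + 1 + (1 + k) + i + k + 1 = (m + 1 + (i + 1)) + (2 * k + 1) by ring,
    show m + 1 + (1 + k) + i + k = (m + 1 + i) + (2 * k + 1) by ring, hper, hper,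
    show m + 1 + (1 + k) + i = m + 1 + (i + 1 + k) by ring]
  ring

end Pool.Agent.H.MP_9e0a8c_lc
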